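import Pool.Agent.helper44.EX.Spec

set_option autoImplicit false

open Complex Metric Set Filter Topology MeasureTheory Pool.Agent.helper98.ILF

noncomputable section

namespace EX

theorem LIF : LIF_stmt := by
  intro n c Φ y k hn hΦ hy
  have key : ∀ j, j ≤ k →
      (∃ g : ℂ → ℂ, DifferentiableOn ℂ g (ball 0 1) ∧ g 0 = (ff n c)^[k - j] y ∧
        ∀ z ∈ ball (0 : ℂ) 1, (ff n c)^[j] (g z) = Φ z) ∨
      ∃ j < k, ∃ g : ℂ → ℂ, DifferentiableOn ℂ g (ball 0 1) ∧ g 0 = (ff n c)^[k - j] y ∧
        (∀ z ∈ ball (0 : ℂ) 1, (ff n c)^[j] (g z) = Φ z) ∧ ∃ z₀ ∈ ball (0 : ℂ) 1, g z₀ = c := by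
    intro j
    induction j with
    | zero =>
      intro _
      left
      exact ⟨Φ, hΦ, by rw [Nat.sub_zero]; exact hy.symm, fun z _ => rfl⟩
    | succ j ih =>
      intro hj
      rcases ih (by omega) with ⟨g, hg, hg0, hgΦ⟩ | h
      · by_cases hc : ∃ z₀ ∈ ball (0 : ℂ) 1, g z₀ = c
        · right
          exact ⟨j, by omega, g, hg, hg0, hgΦ, hc⟩
        · left
          push Not at hc
          have hu : ((ff n c)^[k - (j + 1)] y) ^ n = g 0 - c := by
            rw [hg0, show k - j = k - (j + 1) + 1 by omega, Function.iterate_succ_apply']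
            unfold ff
            ring
          obtain ⟨g₁, h1, h2, h3⟩ := exists_lift_pow (n := n) (by omega)
            (u := (ff n c)^[k - (j + 1)] y) (w := 0) (ρ := 1) (h := fun z => g z - c) one_pos
            (hg.sub_const c) (fun z hz h0 => hc z hz (sub_eq_zero.1 h0)) hu
          refine ⟨g₁, h1, h2, fun z hz => ?_⟩
          rw [Function.iterate_succ_apply, show ff n c (g₁ z) = g z from ?_]
          · exact hgΦ z hz
          · unfold ff
            rw [h3 z hz]
            ring
      · exact Or.inr h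
  rcases key k le_rfl with ⟨g, h1, h2, h3⟩ | h
  · left
    exact ⟨g, h1, by rw [h2, Nat.sub_self]; rfl, h3⟩
  · exact Or.inr h

end EX
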